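import Pool.Agent.MP_fcd29e_an.H11.CS

/-!
The Levi form of `a |Im u|²`.
-/

set_option autoImplicit false

open Complex Set Filter Topology Metric
open scoped ContDiff ComplexConjugate

namespace Pool.Agent.MP_fcd29e_an.H7

open Pool.Agent.MP_fcd29e_an.H11

theorem rsq_nonneg {κ : Type} [Fintype κ] (y : κ → ℝ) : 0 ≤ rsq y :=
  Finset.sum_nonneg fun _ _ => sq_nonneg _

theorem norm_sq_le_rsq {κ : Type} [Fintype κ] (y : κ → ℝ) : ‖y‖ ^ 2 ≤ rsq y := by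
  have h : ‖y‖ ≤ Real.sqrt (rsq y) := by
    refine (pi_norm_le_iff_of_nonneg (Real.sqrt_nonneg _)).2 fun k => ?_
    rw [Real.norm_eq_abs]
    refine Real.abs_le_sqrt ?_
    exact Finset.single_le_sum (f := fun k => y k ^ 2) (fun _ _ => sq_nonneg _) (Finset.mem_univ k)
  calc ‖y‖ ^ 2 ≤ Real.sqrt (rsq y) ^ 2 := by gcongr
    _ = rsq y := Real.sq_sqrt (rsq_nonneg y)

theorem abs_dot_le {κ : Type} [Fintype κ] (y e : κ → ℝ) :
    |∑ k, y k * e k| ≤ Fintype.card κ * (‖y‖ * ‖e‖) := by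
  calc |∑ k, y k * e k| ≤ ∑ k, |y k * e k| := Finset.abs_sum_le_sum_abs _ _
    _ ≤ ∑ _k : κ, ‖y‖ * ‖e‖ := by
      refine Finset.sum_le_sum fun k _ => ?_
      rw [abs_mul]
      have h1 : |y k| ≤ ‖y‖ := norm_le_pi_norm y k
      have h2 : |e k| ≤ ‖e‖ := norm_le_pi_norm e k
      exact mul_le_mul h1 h2 (abs_nonneg _) (norm_nonneg _)
    _ = _ := by simp

theorem rsq_le {κ : Type} [Fintype κ] (y : κ → ℝ) : rsq y ≤ Fintype.card κ * (‖y‖ * ‖y‖) := by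
  have h := abs_dot_le y y
  have e : rsq y = ∑ k, y k * y k := Finset.sum_congr rfl fun k _ => sq _
  rw [e]
  exact (le_abs_self _).trans h

theorem dot_ge {κ : Type} [Fintype κ] (y e : κ → ℝ) (α t : ℝ) (ht : 0 < t) :
    -(2 / t * α ^ 2 * rsq y) - 2 * t * rsq e ≤ 4 * (α * ∑ k, y k * e k) := by
  have h : ∀ k, -(2 / t * α ^ 2 * y k ^ 2) - 2 * t * e k ^ 2 ≤ 4 * (α * (y k * e k)) := by
    intro k
    have h1 : 0 ≤ 2 / t * (α * y k + t * e k) ^ 2 := by positivity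
    have h2 : 2 / t * (α * y k + t * e k) ^ 2 =
        2 / t * α ^ 2 * y k ^ 2 + 2 * t * e k ^ 2 + 4 * (α * (y k * e k)) := by
      field_simp
      ring
    linarith
  have := Finset.sum_le_sum (s := Finset.univ) fun k _ => h k
  simp only [Finset.sum_sub_distrib, Finset.sum_neg_distrib, ← Finset.mul_sum] at this
  exact this

section calc1

variable {X : Type} [NormedAddCommGroup X] [NormedSpace ℝ X]

theorem hs_clm (l : X →L[ℝ] ℝ) (p v : X) : hs l p v = 0 := by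
  have h : fderiv ℝ l = fun _ => l := funext fun _ => l.fderiv
  simp [hs, h]

theorem rsq_smooth {κ : Type} [Fintype κ] (l : X →L[ℝ] (κ → ℝ)) :
    ContDiff ℝ 2 fun q => rsq (l q) := by
  unfold rsq
  refine ContDiff.sum fun k _ => ?_
  exact ((ContinuousLinearMap.proj k).comp l).contDiff.pow 2

theorem fderiv_rsq {κ : Type} [Fintype κ] (l : X →L[ℝ] (κ → ℝ)) (p v : X) :
    fderiv ℝ (fun q => rsq (l q)) p v = 2 * ∑ k, l p k * l v k := by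
  have h : HasFDerivAt (fun q => rsq (l q))
      (∑ k, (2 * l p k) • ((ContinuousLinearMap.proj k).comp l : X →L[ℝ] ℝ)) p := by
    unfold rsq
    refine HasFDerivAt.fun_sum fun k _ => ?_
    have h1 := ((ContinuousLinearMap.proj k).comp l : X →L[ℝ] ℝ).hasFDerivAt (x := p)
    have h2 := h1.pow 2
    simpa using h2
  rw [h.fderiv]
  simp [Finset.mul_sum, mul_assoc]

theorem hs_rsq (hHS : SHS) {κ : Type} [Fintype κ] (l : X →L[ℝ] (κ → ℝ)) (p v : X) :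
    hs (fun q => rsq (l q)) p v = 2 * rsq (l v) := by
  have e : (fun q => rsq (l q)) = fun q => ∑ k ∈ Finset.univ,
      ((ContinuousLinearMap.proj k).comp l : X →L[ℝ] ℝ) q *
        ((ContinuousLinearMap.proj k).comp l : X →L[ℝ] ℝ) q := by
    funext q
    simp [rsq, sq]
  rw [e, hHS.sum X κ Finset.univ (fun k q => ((ContinuousLinearMap.proj k).comp l : X →L[ℝ] ℝ) q *
        ((ContinuousLinearMap.proj k).comp l : X →L[ℝ] ℝ) q) p v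
    (fun k _ => (((ContinuousLinearMap.proj k).comp l : X →L[ℝ] ℝ).contDiff.mul
      ((ContinuousLinearMap.proj k).comp l : X →L[ℝ] ℝ).contDiff).contDiffAt)]
  unfold rsq
  rw [Finset.mul_sum]
  refine Finset.sum_congr rfl fun k _ => ?_
  have h := (hHS.add X ((ContinuousLinearMap.proj k).comp l : X →L[ℝ] ℝ)
    ((ContinuousLinearMap.proj k).comp l : X →L[ℝ] ℝ) p v
    ((ContinuousLinearMap.proj k).comp l : X →L[ℝ] ℝ).contDiff.contDiffAt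
    ((ContinuousLinearMap.proj k).comp l : X →L[ℝ] ℝ).contDiff.contDiffAt).2.2
  rw [h, hs_clm, ContinuousLinearMap.fderiv]
  simp [sq]

theorem hs_mul_rsq (hHS : SHS) {κ : Type} [Fintype κ] (l : X →L[ℝ] (κ → ℝ)) (a : X → ℝ) (p v : X)
    (ha : ContDiffAt ℝ 2 a p) : hs (fun q => a q * rsq (l q)) p v =
      2 * a p * rsq (l v) + rsq (l p) * hs a p v + 4 * (fderiv ℝ a p v * ∑ k, l p k * l v k) := by
  rw [(hHS.add X a (fun q => rsq (l q)) p v ha (rsq_smooth l).contDiffAt).2.2, hs_rsq hHS,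
    fderiv_rsq]
  ring

theorem abs_d2_le (a : X → ℝ) (p v w : X) (M : ℝ) (hM : ‖fderiv ℝ (fderiv ℝ a) p‖ ≤ M) :
    |fderiv ℝ (fderiv ℝ a) p v w| ≤ M * ‖v‖ * ‖w‖ := by
  have h := (fderiv ℝ (fderiv ℝ a) p).le_opNorm₂ v w
  rw [Real.norm_eq_abs] at h
  refine h.trans ?_
  gcongr

theorem abs_d1_le (a : X → ℝ) (p v : X) (M : ℝ) (hM : ‖fderiv ℝ a p‖ ≤ M) :
    |fderiv ℝ a p v| ≤ M * ‖v‖ := by
  have h := (fderiv ℝ a p).le_opNorm v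
  rw [Real.norm_eq_abs] at h
  refine h.trans ?_
  gcongr

theorem hs_inv (hHS : SHS) (b : X → ℝ) (p v : X) (hb : ContDiffAt ℝ 2 b p) (h0 : 0 < b p) :
    hs (fun q => (b q)⁻¹) p v = -(b p ^ 2)⁻¹ * hs b p v + 2 * (b p ^ 3)⁻¹ * fderiv ℝ b p v ^ 2 := by
  have h := hHS.comp X b (fun x => x⁻¹) p v hb (contDiffAt_inv ℝ h0.ne')
  rw [h]
  have e1 : deriv (fun x : ℝ => x⁻¹) = fun x => -(x ^ 2)⁻¹ := deriv_inv'
  have e2 : HasDerivAt (fun x : ℝ => -(x ^ 2)⁻¹) (2 * (b p ^ 3)⁻¹) (b p) := by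
    have h1 := ((hasDerivAt_pow 2 (b p)).fun_inv (pow_ne_zero 2 h0.ne')).fun_neg
    refine h1.congr_deriv ?_
    have := h0.ne'
    norm_num
    field_simp
  rw [e1, e2.deriv]

end calc1

section slice

variable {U : Type} [NormedAddCommGroup U] [NormedSpace ℝ U]

theorem slice (hHS : SHS) (a : ℂ × U → ℝ) (p : ℂ × U) (w : ℂ) (ha : ContDiffAt ℝ 2 a p) :
    ContDiffAt ℝ 2 (fun z => a (z, p.2)) p.1 ∧
      hs (fun z => a (z, p.2)) p.1 w = hs a p (w, 0) ∧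
      fderiv ℝ (fun z => a (z, p.2)) p.1 w = fderiv ℝ a p (w, 0) := by
  have hγ : ContDiff ℝ 2 fun z : ℂ => (z, p.2) := contDiff_id.prodMk contDiff_const
  have hd : ∀ z : ℂ, HasFDerivAt (fun z : ℂ => (z, p.2)) (ContinuousLinearMap.inl ℝ ℂ U) z :=
    fun z => hasFDerivAt_prodMk_left z p.2
  have hf : fderiv ℝ (fun z : ℂ => (z, p.2)) = fun _ => ContinuousLinearMap.inl ℝ ℂ U :=
    funext fun z => (hd z).fderiv
  have ha' : ContDiffAt ℝ 2 a ((fun z : ℂ => (z, p.2)) p.1) := ha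
  refine ⟨ha'.comp p.1 hγ.contDiffAt, ?_, ?_⟩
  · have h := hHS.chain ℂ (ℂ × U) a (fun z : ℂ => (z, p.2)) p.1 w hγ.contDiffAt ha'
    rw [h, hf]
    simp
  · have h1 : HasFDerivAt a (fderiv ℝ a p) ((fun z : ℂ => (z, p.2)) p.1) :=
      (ha.differentiableAt (by norm_num)).hasFDerivAt
    have h2 := (h1.comp p.1 (hd p.1)).fderiv
    have e : (fun z => a (z, p.2)) = a ∘ fun z : ℂ => (z, p.2) := rfl
    rw [e, h2]
    simp

end slice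

theorem coer {U κ : Type} [NormedAddCommGroup U] [NormedSpace ℝ U] [NormedSpace ℂ U]
    [IsScalarTower ℝ ℂ U] [FiniteDimensional ℝ U] [Fintype κ] (Jr : U →L[ℝ] (κ → ℝ))
    (hJ : ∀ η, Jr η = 0 → Jr (I • η) = 0 → η = 0) :
    ∃ c₀ : ℝ, 0 < c₀ ∧ ∀ η, c₀ * ‖η‖ ^ 2 ≤ rsq (Jr η) + rsq (Jr (I • η)) := by
  let T : U →ₗ[ℝ] (κ → ℝ) × (κ → ℝ) :=
    { toFun := fun η => (Jr η, Jr (I • η))
      map_add' := fun u v => by simp [smul_add]
      map_smul' := fun r u => by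
        rw [smul_comm I r u]
        simp }
  have hT : LinearMap.ker T = ⊥ := by
    rw [LinearMap.ker_eq_bot']
    intro η h
    exact hJ η (congrArg Prod.fst h) (congrArg Prod.snd h)
  obtain ⟨K, hK, hA⟩ := T.exists_antilipschitzWith hT
  have hK' : (0 : ℝ) < K := hK
  refine ⟨((K : ℝ) ^ 2)⁻¹, by positivity, fun η => ?_⟩
  have h1 : ‖η‖ ≤ K * ‖T η‖ := by
    have := hA.le_mul_dist η 0
    simpa using this
  have h2 : ‖T η‖ ^ 2 ≤ rsq (Jr η) + rsq (Jr (I • η)) := by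
    have e : ‖T η‖ = max ‖Jr η‖ ‖Jr (I • η)‖ := rfl
    have a1 := norm_sq_le_rsq (Jr η)
    have a2 := norm_sq_le_rsq (Jr (I • η))
    have a3 := rsq_nonneg (Jr η)
    have a4 := rsq_nonneg (Jr (I • η))
    rw [e]
    rcases max_choice ‖Jr η‖ ‖Jr (I • η)‖ with h | h <;> rw [h] <;> linarith
  have h3 : ‖η‖ ^ 2 ≤ (K * ‖T η‖) ^ 2 := by gcongr
  rw [inv_mul_le_iff₀ (by positivity)]
  calc ‖η‖ ^ 2 ≤ (K * ‖T η‖) ^ 2 := h3
    _ = (K : ℝ) ^ 2 * ‖T η‖ ^ 2 := by ring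
    _ ≤ _ := by gcongr

theorem alg1 (δ c₀ M t A L G R Y x e E₁ E₂ s₁ s₂ α₁ α₂ β₁ β₂ lv : ℝ) (hδ : 0 < δ)
    (hR : 0 ≤ R) (hY : Y ≤ R) (hA : δ ≤ A - t) (hL : δ ≤ L - 2 / t * G)
    (hE₁ : 0 ≤ E₁) (hE₂ : 0 ≤ E₂) (hE : c₀ * e ^ 2 ≤ E₁ + E₂)
    (hα : α₁ ^ 2 + α₂ ^ 2 = x ^ 2 * G) (hβ₁ : β₁ ^ 2 ≤ M ^ 2 * e ^ 2) (hβ₂ : β₂ ^ 2 ≤ M ^ 2 * e ^ 2)
    (hlv : x ^ 2 * L - 4 * M * x * e - 2 * M * e ^ 2 ≤ lv)
    (hsm : R * (2 * M + 16 * M ^ 2 / δ) ≤ δ * c₀ / 2)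
    (a₁ : -(2 / t * α₁ ^ 2 * R) - 2 * t * E₁ ≤ 4 * (α₁ * s₁))
    (a₂ : -(2 / t * α₂ ^ 2 * R) - 2 * t * E₂ ≤ 4 * (α₂ * s₂))
    (b₁ : -(2 / (δ / 2) * β₁ ^ 2 * R) - 2 * (δ / 2) * E₁ ≤ 4 * (β₁ * s₁))
    (b₂ : -(2 / (δ / 2) * β₂ ^ 2 * R) - 2 * (δ / 2) * E₂ ≤ 4 * (β₂ * s₂)) :
    δ / 2 * (Y * x ^ 2) + δ * c₀ / 2 * e ^ 2 ≤
      2 * A * (E₁ + E₂) + R * lv + 4 * ((α₁ + β₁) * s₁) + 4 * ((α₂ + β₂) * s₂) := by
  have h1 : R * (x ^ 2 * L - 4 * M * x * e - 2 * M * e ^ 2) ≤ R * lv :=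
    mul_le_mul_of_nonneg_left hlv hR
  have h2 : 2 / t * α₁ ^ 2 * R + 2 / t * α₂ ^ 2 * R = 2 / t * G * (R * x ^ 2) := by
    have : 2 / t * α₁ ^ 2 * R + 2 / t * α₂ ^ 2 * R = 2 / t * R * (α₁ ^ 2 + α₂ ^ 2) := by ring
    rw [this, hα]
    ring
  have hRx : 0 ≤ R * x ^ 2 := by positivity
  have h3 : δ * (R * x ^ 2) ≤ (L - 2 / t * G) * (R * x ^ 2) := mul_le_mul_of_nonneg_right hL hRx
  have h4 : δ * (E₁ + E₂) ≤ (A - t) * (E₁ + E₂) := mul_le_mul_of_nonneg_right hA (by linarith)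
  have h5 : 2 / (δ / 2) * β₁ ^ 2 * R ≤ 4 * M ^ 2 / δ * (R * e ^ 2) := by
    have : 2 / (δ / 2) * β₁ ^ 2 * R ≤ 2 / (δ / 2) * (M ^ 2 * e ^ 2) * R := by gcongr
    refine this.trans (le_of_eq ?_)
    field_simp
    ring
  have h6 : 2 / (δ / 2) * β₂ ^ 2 * R ≤ 4 * M ^ 2 / δ * (R * e ^ 2) := by
    have : 2 / (δ / 2) * β₂ ^ 2 * R ≤ 2 / (δ / 2) * (M ^ 2 * e ^ 2) * R := by gcongr
    refine this.trans (le_of_eq ?_)
    field_simp
    ring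
  have h7 : R * (4 * M * x * e) ≤ δ / 2 * (R * x ^ 2) + 8 * M ^ 2 / δ * (R * e ^ 2) := by
    have k1 : 0 ≤ R * (δ / 2 * (x - 4 * M / δ * e) ^ 2) := by positivity
    have k2 : R * (δ / 2 * (x - 4 * M / δ * e) ^ 2) =
        δ / 2 * (R * x ^ 2) + 8 * M ^ 2 / δ * (R * e ^ 2) - R * (4 * M * x * e) := by
      field_simp
      ring
    linarith
  have h8 : R * (2 * M + 16 * M ^ 2 / δ) * e ^ 2 ≤ δ * c₀ / 2 * e ^ 2 :=
    mul_le_mul_of_nonneg_right hsm (sq_nonneg e)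
  have h9 : δ * (c₀ * e ^ 2) ≤ δ * (E₁ + E₂) := mul_le_mul_of_nonneg_left hE hδ.le
  have h10 : δ / 2 * (Y * x ^ 2) ≤ δ / 2 * (R * x ^ 2) := by gcongr
  have h11 : R * (2 * M + 16 * M ^ 2 / δ) * e ^ 2 = 2 * M * (R * e ^ 2) +
      4 * M ^ 2 / δ * (R * e ^ 2) + 4 * M ^ 2 / δ * (R * e ^ 2) + 8 * M ^ 2 / δ * (R * e ^ 2) := by
    ring
  nlinarith

theorem sly (hHS : SHS) (hLV : SLV) : SLY := by
  intro U κ _ _ _ _ _ _ Jr a p₀ hJ hy₀ hSm ha₀ hlap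
  obtain ⟨c₀, hc₀, hco⟩ := coer Jr hJ
  have h2 : ∀ᶠ p in 𝓝 p₀, ContDiffAt ℝ 2 a p :=
    hSm.mono fun p hp => hp.of_le (WithTop.coe_le_coe.2 le_top)
  have h20 := h2.self_of_nhds
  have hd1 : ContDiffAt ℝ 1 (fderiv ℝ a) p₀ := h20.fderiv_right (by norm_num)
  have hc1 : ContinuousAt (fderiv ℝ a) p₀ := hd1.continuousAt
  have hc2 : ContinuousAt (fderiv ℝ (fderiv ℝ a)) p₀ :=
    (hd1.fderiv_right (m := 0) (by norm_num)).continuousAt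
  set L : ℂ × U → ℝ := fun p => hs a p (1, 0) + hs a p (I, 0) with hL
  set G : ℂ × U → ℝ := fun p => fderiv ℝ a p (1, 0) ^ 2 + fderiv ℝ a p (I, 0) ^ 2 with hG
  have hcL : ContinuousAt L p₀ := by
    simp only [hL, hs]
    exact ((hc2.clm_apply continuousAt_const).clm_apply continuousAt_const).add
      ((hc2.clm_apply continuousAt_const).clm_apply continuousAt_const)
  have hcG : ContinuousAt G p₀ := by
    simp only [hG]
    exact ((hc1.clm_apply continuousAt_const).pow 2).add ((hc1.clm_apply continuousAt_const).pow 2)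
  have hG0 : 0 ≤ G p₀ := by simp only [hG]; positivity
  have key : 2 * G p₀ < a p₀ * L p₀ := by
    obtain ⟨s1, s2, s3⟩ := slice hHS a p₀ 1 h20
    obtain ⟨-, s4, s5⟩ := slice hHS a p₀ I h20
    have e1 := hs_inv hHS (fun z => a (z, p₀.2)) p₀.1 1 s1 ha₀
    have e2 := hs_inv hHS (fun z => a (z, p₀.2)) p₀.1 I s1 ha₀
    have e3 : lap (fun z => (a (z, p₀.2))⁻¹) p₀.1 = hs (fun z => (a (z, p₀.2))⁻¹) p₀.1 1 +
        hs (fun z => (a (z, p₀.2))⁻¹) p₀.1 I := by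
      simp [lap, lev]
    rw [e3, e1, e2, s2, s3, s4, s5] at hlap
    have e4 : (p₀.1, p₀.2) = p₀ := rfl
    rw [e4] at hlap
    have e5 : 2 * G p₀ - a p₀ * L p₀ = a p₀ ^ 3 * (-(a p₀ ^ 2)⁻¹ * hs a p₀ (1, 0) +
        2 * (a p₀ ^ 3)⁻¹ * fderiv ℝ a p₀ (1, 0) ^ 2 + (-(a p₀ ^ 2)⁻¹ * hs a p₀ (I, 0) +
        2 * (a p₀ ^ 3)⁻¹ * fderiv ℝ a p₀ (I, 0) ^ 2)) := by
      simp only [hL, hG]
      have := ha₀.ne'
      field_simp
      ring
    have e6 := mul_neg_of_pos_of_neg (pow_pos ha₀ 3) hlap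
    linarith
  have hL0 : 0 < L p₀ := by
    by_contra hn
    push Not at hn
    have := mul_nonpos_of_nonneg_of_nonpos ha₀.le hn
    linarith
  obtain ⟨t, ht1, ht2⟩ : ∃ t, 2 * G p₀ / L p₀ < t ∧ t < a p₀ :=
    exists_between ((div_lt_iff₀ hL0).2 key)
  have ht0 : 0 < t := lt_of_le_of_lt (by positivity) ht1
  have ht3 : 0 < L p₀ - 2 / t * G p₀ := by
    have h1 := (div_lt_iff₀ hL0).1 ht1
    have h3 : 2 / t * G p₀ = 2 * G p₀ / t := by ring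
    rw [h3, sub_pos, div_lt_iff₀ ht0]
    linarith
  obtain ⟨δ, hδ, hδ'⟩ : ∃ δ, 0 < δ ∧ δ < min (a p₀ - t) (L p₀ - 2 / t * G p₀) :=
    exists_between (lt_min (by linarith) ht3)
  have hδ1 := lt_of_lt_of_le hδ' (min_le_left _ _)
  have hδ2 := lt_of_lt_of_le hδ' (min_le_right _ _)
  set M : ℝ := ‖fderiv ℝ a p₀‖ + ‖fderiv ℝ (fderiv ℝ a) p₀‖ + 1 with hM
  have hM0 : 0 < M := by positivity
  have hM1 : ‖fderiv ℝ a p₀‖ < M := by
    have := norm_nonneg (fderiv ℝ (fderiv ℝ a) p₀)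
    linarith
  have hM2 : ‖fderiv ℝ (fderiv ℝ a) p₀‖ < M := by
    have := norm_nonneg (fderiv ℝ a p₀)
    linarith
  have ev1 : ∀ᶠ p in 𝓝 p₀, ‖fderiv ℝ a p‖ < M := hc1.norm.eventually (gt_mem_nhds hM1)
  have ev2 : ∀ᶠ p in 𝓝 p₀, ‖fderiv ℝ (fderiv ℝ a) p‖ < M := by
    have hc3 : ContinuousAt (fun p => ‖fderiv ℝ (fderiv ℝ a) p‖) p₀ :=
      ContinuousAt.norm (f := fderiv ℝ (fderiv ℝ a)) hc2
    exact hc3.eventually (gt_mem_nhds hM2)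
  have ev3 : ∀ᶠ p in 𝓝 p₀, δ < a p - t :=
    (h20.continuousAt.sub continuousAt_const).eventually (lt_mem_nhds hδ1)
  have ev4 : ∀ᶠ p in 𝓝 p₀, δ < L p - 2 / t * G p :=
    (hcL.sub (continuousAt_const.mul hcG)).eventually (lt_mem_nhds hδ2)
  let l : ℂ × U →L[ℝ] (κ → ℝ) := Jr.comp (ContinuousLinearMap.snd ℝ ℂ U)
  have hl : ∀ q : ℂ × U, l q = Jr q.2 := fun _ => rfl
  have ev5 : ∀ᶠ p in 𝓝 p₀, rsq (l p) * (2 * M + 16 * M ^ 2 / δ) < δ * c₀ / 2 := by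
    refine ((rsq_smooth l).continuous.continuousAt.mul continuousAt_const).eventually
      (gt_mem_nhds ?_)
    have : rsq (l p₀) = 0 := by rw [hl, hy₀]; simp [rsq]
    change rsq (l p₀) * (2 * M + 16 * M ^ 2 / δ) < δ * c₀ / 2
    rw [this, zero_mul]
    positivity
  have ev6 : ∀ᶠ p in 𝓝 p₀, ‖l p‖ < 1 := by
    refine l.continuous.continuousAt.norm.eventually (gt_mem_nhds ?_)
    change ‖l p₀‖ < 1
    rw [hl, hy₀]
    simp
  refine ⟨min (δ / 2) (δ * c₀ / 2), Fintype.card κ * M + 4 * (M * (Fintype.card κ * ‖Jr‖)),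
    lt_min (by positivity) (by positivity), ?_⟩
  filter_upwards [h2, ev1, ev2, ev3, ev4, ev5, ev6] with p hp2 p1 p2 p3 p4 p5 p6
  rintro ⟨ζ, η⟩
  have hF : (fun q : ℂ × U => a q * rsq (Jr q.2)) = fun q => a q * rsq (l q) := rfl
  have hmin1 : min (δ / 2) (δ * c₀ / 2) ≤ δ / 2 := min_le_left _ _
  have hmin2 : min (δ / 2) (δ * c₀ / 2) ≤ δ * c₀ / 2 := min_le_right _ _
  have n1 : ∀ z : ℂ, ‖((z, 0) : ℂ × U)‖ = ‖z‖ := fun z => by simp [Prod.norm_def]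
  have n2 : ∀ u : U, ‖((0, u) : ℂ × U)‖ = ‖u‖ := fun u => by simp [Prod.norm_def]
  have nI : ‖I • η‖ = ‖η‖ := by rw [norm_smul]; simp
  have nI' : ‖I * ζ‖ = ‖ζ‖ := by simp
  constructor
  · have eI : I • ((ζ, η) : ℂ × U) = (I * ζ, I • η) := rfl
    have sp : ∀ (z : ℂ) (u : U), ((z, u) : ℂ × U) = (z, 0) + (0, u) := fun z u => by simp
    have d1 : ∀ (z : ℂ) (u : U), fderiv ℝ a p (z, u) = fderiv ℝ a p (z, 0) + fderiv ℝ a p (0, u) :=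
      fun z u => by rw [sp z u, map_add]
    have d2 : ∀ (z : ℂ) (u : U), hs a p (z, 0) - 2 * (M * ‖z‖ * ‖u‖) - M * ‖u‖ * ‖u‖ ≤
        hs a p (z, u) := by
      intro z u
      rw [sp z u, (hHS.polar (ℂ × U) a p (z, 0) (0, u) hp2).2]
      have b1 := abs_d2_le a p (z, 0) (0, u) M p2.le
      have b2 := abs_d2_le a p (0, u) (0, u) M p2.le
      rw [n1, n2] at b1
      rw [n2] at b2
      have b3 := (abs_le.1 b1).1
      have b4 := (abs_le.1 b2).1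
      have b5 : hs a p (0, u) = fderiv ℝ (fderiv ℝ a) p (0, u) (0, u) := rfl
      linarith
    have d3 : hs a p (ζ, 0) + hs a p (I * ζ, 0) = ‖ζ‖ ^ 2 * L p := by
      have h := hLV.scal (ℂ × U) a p (1, 0) ζ hp2
      have k1 : ζ • ((1, 0) : ℂ × U) = (ζ, 0) := by simp
      have k2 : I • ((ζ, 0) : ℂ × U) = (I * ζ, 0) := by simp
      have k3 : I • ((1, 0) : ℂ × U) = (I, 0) := by simp
      rw [k1, lev, lev, k2, k3] at h
      exact h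
    have d4 : ∀ z : ℂ, fderiv ℝ a p (z, 0) =
        z.re * fderiv ℝ a p (1, 0) + z.im * fderiv ℝ a p (I, 0) := by
      intro z
      have k : ((z, 0) : ℂ × U) = z.re • ((1, 0) : ℂ × U) + z.im • ((I, 0) : ℂ × U) := by
        ext
        · simp
        · simp
      rw [k, map_add, map_smul, map_smul]
      rfl
    have d5 : fderiv ℝ a p (ζ, 0) ^ 2 + fderiv ℝ a p (I * ζ, 0) ^ 2 = ‖ζ‖ ^ 2 * G p := by
      rw [d4 ζ, d4 (I * ζ), Complex.sq_norm, Complex.normSq_apply]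
      simp only [hG, mul_re, mul_im, I_re, I_im]
      ring
    have d6 : ∀ u : U, fderiv ℝ a p (0, u) ^ 2 ≤ M ^ 2 * ‖u‖ ^ 2 := by
      intro u
      have b1 := abs_d1_le a p (0, u) M p1.le
      rw [n2] at b1
      rw [← mul_pow]
      exact sq_le_sq' (abs_le.1 b1).1 (abs_le.1 b1).2
    have d7 := d6 (I • η)
    rw [nI] at d7
    have d8 := d2 ζ η
    have d9 := d2 (I * ζ) (I • η)
    rw [nI, nI'] at d9
    have main := alg1 δ c₀ M t (a p) (L p) (G p) (rsq (Jr p.2)) (‖Jr p.2‖ ^ 2) ‖ζ‖ ‖η‖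
      (rsq (Jr η)) (rsq (Jr (I • η))) (∑ k, Jr p.2 k * Jr η k) (∑ k, Jr p.2 k * Jr (I • η) k)
      (fderiv ℝ a p (ζ, 0)) (fderiv ℝ a p (I * ζ, 0)) (fderiv ℝ a p (0, η))
      (fderiv ℝ a p (0, I • η)) (hs a p (ζ, η) + hs a p (I * ζ, I • η)) hδ (rsq_nonneg _)
      (norm_sq_le_rsq _) p3.le p4.le (rsq_nonneg _) (rsq_nonneg _) (hco η) d5 (d6 η) d7
      (by linarith) p5.le (dot_ge _ _ _ _ ht0) (dot_ge _ _ _ _ ht0)
      (dot_ge _ _ _ _ (by positivity)) (dot_ge _ _ _ _ (by positivity))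
    rw [lev, eI, hF, hs_mul_rsq hHS l a p _ hp2, hs_mul_rsq hHS l a p _ hp2, d1 ζ η,
      d1 (I * ζ) (I • η)]
    simp only [hl]
    have q1 : min (δ / 2) (δ * c₀ / 2) * (‖Jr p.2‖ ^ 2 * ‖ζ‖ ^ 2) ≤
        δ / 2 * (‖Jr p.2‖ ^ 2 * ‖ζ‖ ^ 2) := by gcongr
    have q2 : min (δ / 2) (δ * c₀ / 2) * ‖η‖ ^ 2 ≤ δ * c₀ / 2 * ‖η‖ ^ 2 := by gcongr
    linarith
  · intro hz
    have hz' : ζ = 0 := hz
    subst hz'
    rw [hF, hs_mul_rsq hHS l a p _ hp2]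
    simp only [hl]
    rw [hl] at p6
    have b1 := abs_d1_le a p (0, η) M p1.le
    have b2 := abs_d2_le a p (0, η) (0, η) M p2.le
    rw [n2] at b1 b2
    have b5 : hs a p (0, η) = fderiv ℝ (fderiv ℝ a) p (0, η) (0, η) := rfl
    rw [← b5] at b2
    have b3 := abs_dot_le (Jr p.2) (Jr η)
    have b4 : ‖Jr η‖ ≤ ‖Jr‖ * ‖η‖ := Jr.le_opNorm η
    have b6 : |fderiv ℝ a p (0, η) * ∑ k, Jr p.2 k * Jr η k| ≤
        M * ‖η‖ * (Fintype.card κ * (‖Jr p.2‖ * (‖Jr‖ * ‖η‖))) := by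
      rw [abs_mul]
      refine mul_le_mul b1 (b3.trans ?_) (abs_nonneg _) (by positivity)
      gcongr
    have b7 : rsq (Jr p.2) ≤ Fintype.card κ * ‖Jr p.2‖ := by
      refine (rsq_le _).trans ?_
      have : ‖Jr p.2‖ * ‖Jr p.2‖ ≤ ‖Jr p.2‖ * 1 := by gcongr
      rw [mul_one] at this
      gcongr
    have b8 : |rsq (Jr p.2) * hs a p (0, η)| ≤ Fintype.card κ * ‖Jr p.2‖ * (M * ‖η‖ * ‖η‖) := by
      rw [abs_mul, abs_of_nonneg (rsq_nonneg _)]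
      exact mul_le_mul b7 b2 (abs_nonneg _) (by positivity)
    have b9 : min (δ / 2) (δ * c₀ / 2) * ‖Jr η‖ ^ 2 ≤ 2 * a p * rsq (Jr η) :=
      mul_le_mul (by linarith) (norm_sq_le_rsq _) (sq_nonneg _) (by linarith)
    have c1 := (abs_le.1 b6).1
    have c2 := (abs_le.1 b8).1
    nlinarith

end Pool.Agent.MP_fcd29e_an.H7
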